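import Mathlib
import Pool.Agent.H29.KDimDefs
import Pool.Agent.H29.KIrred

set_option autoImplicit false

namespace Pool.Agent.Results.MP_6e33d6_co.Embed

open Pool.Agent.H29.KDim

theorem result : ∀ k : ℕ, 2 ≤ k → ∀ (P : Type) [Fintype P] [PartialOrder P],
    ∃ (Q : Type) (_ : Fintype Q) (_ : PartialOrder Q), Irred k Q ∧ Nonempty (P ↪o Q) ∧
      dimk k P < dimk k Q := by
  intro k hk P _ _
  obtain ⟨K, rfl⟩ : ∃ K, k = K + 2 := ⟨k - 2, by omega⟩
  exact main K P

end Pool.Agent.Results.MP_6e33d6_co.Embed
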